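import Pool.Agent.W441.PT.Main2

/-!
# The polytope invariant of a group of cohomological dimension two is a polytope

Let `Γ ≠ ℤ` be an `L²`-acyclic group with a finite free resolution of the trivial module, of
cohomological dimension at most two, which satisfies the Atiyah Conjecture. Then the polytope
invariant `P(Γ) = -P(τ)` is represented by a polytope.

With the conventions used here `P(ℤ) = -[0, 1]`: the torsion of `ℤ[ℤ] → ℤ[ℤ]`, `1 ↦ t - 1`, is
the class of `t - 1`.
-/

attribute [local instance] L2B.instRingN

set_option autoImplicit false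

namespace Pool.Agent.Results.MP_55fbef_al.TwoDimPolytope

open TN970 H970SH CategoryTheory W441PT

/-- Let `Γ` be a finitely generated group and `C` a finite resolution of the trivial module by
finitely generated based free `ℤ[Γ]`-modules (for example the cellular chain complex of the
universal covering of a finite `K(Γ, 1)`). Let `Γ` be of cohomological dimension at most two,
`L²`-acyclic, not isomorphic to `ℤ`, and assume that it satisfies the Atiyah Conjecture.
Then `D(Γ)` exists, and for every model `u : Γ → D(Γ)ˣ` of it: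
* there is exactly one homomorphism `pol : K₁(D(Γ)) → 𝔊(H_1(Γ; ℝ))` whose values on the elements
  of the crossed product `D(K) * H` are given by the Newton polytopes;
* the acyclic based complex `D(Γ) ⊗ C` has a torsion `τ`;
* `-pol τ` is the class of a polytope `P`, which does not depend on the choices in the definition
  of `τ`. -/
theorem result (Γ : Type) [Group Γ] [Group.FG Γ] (C : V7N.FreeRes Γ) (m : ℕ)
    (hm : ∀ n, m ≤ n → C.r n = 0) (hcd : HasProjectiveDimensionLE (V7N.trivG Γ) 2)
    (hl2 : ∀ n, L2B.l2Betti Γ n = 0) (hA : L2B.Atiyah Γ)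
    (hZ : IsEmpty (Γ ≃* Multiplicative ℤ)) :
    (∃ (D : Type) (_ : DivisionRing D) (u : Γ →* Dˣ), IsDG u) ∧
    ∀ (D : Type) [DivisionRing D] (u : Γ →* Dˣ), IsDG u →
      (∃! pol : K1 D →+ GV (H1R Γ), IsPol u pol) ∧
      (∃ τ, IsTorsion C.r (fun n => (C.d n).map (ev u)) τ) ∧
      ∀ pol : K1 D →+ GV (H1R Γ), IsPol u pol →
        ∃ P : Polytope (H1R Γ), ∀ τ, IsTorsion C.r (fun n => (C.d n).map (ev u)) τ →
          -pol τ = GV.mk P := by
  refine ⟨exists_dg hA, fun D _ u hD => ⟨exists_unique_pol hD, main_tor hD C m hm hl2,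
    fun pol hpol => ?_⟩⟩
  obtain ⟨τ0, h0⟩ := main_tor hD C m hm hl2
  obtain ⟨P, hP⟩ := main_rep hD C m hm hcd hl2 hZ pol hpol τ0 h0
  refine ⟨P, fun τ hτ => ?_⟩
  rw [main_uniq hD C pol hpol τ τ0 hτ h0]
  exact hP

end Pool.Agent.Results.MP_55fbef_al.TwoDimPolytope
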